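import Mathlib
import Pool.Agent.H759R2.Kad.Props7
import Pool.Agent.H216R2.Kad3.Level

/-!
From level bounds for matrices over a corner to level bounds for the whole algebra.
-/

open scoped ComplexOrder InnerProductSpace ComplexConjugate
open Finset

noncomputable section

namespace H759R2.Kad

universe u v

namespace Comb

section basic

variable {F : Type u} [CStarAlgebra F]

theorem prj_norm {p : F} (hp : Prj p) : ‖p‖ ≤ 1 := by
  have h : ‖p‖ * ‖p‖ = ‖p‖ := by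
    have h1 := CStarRing.norm_star_mul_self (x := p)
    rw [hp.1, hp.2] at h1
    exact h1.symm
  by_contra hc
  push Not at hc
  nlinarith

theorem pi_norm {v p : F} (hp : Prj p) (h : star v * v = p) : ‖v‖ ≤ 1 := by
  have h1 := CStarRing.norm_star_mul_self (x := v)
  rw [h] at h1
  have h2 := prj_norm hp
  rw [h1] at h2
  by_contra hc
  push Not at hc
  nlinarith [norm_nonneg v]

theorem tup_mul {n : ℕ} {V : Fin n → F} {P : F} (h : Tup V P) (i : Fin n) : V i * P = V i := by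
  have h1 : star (V i * P - V i) * (V i * P - V i) = 0 := by
    have h2 := h.rel i i
    rw [if_pos rfl] at h2
    have h3 : star (V i * P - V i) * (V i * P - V i) =
        P * (star (V i) * V i) * P - P * (star (V i) * V i) - (star (V i) * V i) * P +
          star (V i) * V i := by
      rw [star_sub, star_mul, h.pr.1]
      noncomm_ring
    rw [h3, h2, h.pr.2, h.pr.2]
    simp
  have h4 := (CStarRing.star_mul_self_eq_zero_iff (V i * P - V i)).1 h1
  exact sub_eq_zero.1 h4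

theorem G_mul {n : ℕ} {V : Fin n → F} {P : F} (h : Tup V P) (i : Fin n) :
    (∑ l, V l * star (V l)) * V i = V i := by
  rw [Finset.sum_mul, Finset.sum_eq_single i]
  · rw [mul_assoc, h.rel i i, if_pos rfl, tup_mul h]
  · intro j _ hj
    rw [mul_assoc, h.rel j i, if_neg hj, mul_zero]
  · simp

theorem G_prj {n : ℕ} {V : Fin n → F} {P : F} (h : Tup V P) :
    Prj (∑ l, V l * star (V l)) := by
  constructor
  · rw [star_sum]
    simp
  · rw [Finset.mul_sum]
    refine Finset.sum_congr rfl fun i _ => ?_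
    rw [← mul_assoc, G_mul h]

/-- The matrix `(C a * X i j * (C b)*)`. -/
def psiM (C : Fin 2 → F) {m : ℕ} (X : CStarMatrix (Fin m) (Fin m) F) :
    CStarMatrix (Fin 2 × Fin m) (Fin 2 × Fin m) F :=
  CStarMatrix.ofMatrix fun p q => C p.1 * X p.2 q.2 * star (C q.1)

theorem psiM_apply (C : Fin 2 → F) {m : ℕ} (X : CStarMatrix (Fin m) (Fin m) F)
    (p q : Fin 2 × Fin m) : psiM C X p q = C p.1 * X p.2 q.2 * star (C q.1) := rfl

/-- The `*`-homomorphism `X ↦ (C a * X i j * (C b)*)`. -/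
def psi (C : Fin 2 → F) (hC : ∑ a, star (C a) * C a = 1) (m : ℕ) :
    CStarMatrix (Fin m) (Fin m) F →⋆ₙₐ[ℂ] CStarMatrix (Fin 2 × Fin m) (Fin 2 × Fin m) F where
  toFun X := psiM C X
  map_smul' c X := by
    ext p q
    change C p.1 * (c • X p.2 q.2) * star (C q.1) = c • (C p.1 * X p.2 q.2 * star (C q.1))
    rw [mul_smul_comm, smul_mul_assoc]
  map_zero' := by
    ext p q
    change C p.1 * 0 * star (C q.1) = 0
    simp
  map_add' X Y := by
    ext p q
    change C p.1 * (X p.2 q.2 + Y p.2 q.2) * star (C q.1) =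
      C p.1 * X p.2 q.2 * star (C q.1) + C p.1 * Y p.2 q.2 * star (C q.1)
    rw [mul_add, add_mul]
  map_mul' X Y := by
    ext p q
    rw [psiM_apply, CStarMatrix.mul_apply, CStarMatrix.mul_apply]
    simp only [psiM_apply]
    rw [Fintype.sum_prod_type, Finset.sum_comm, Finset.mul_sum, Finset.sum_mul]
    refine Finset.sum_congr rfl fun k _ => ?_
    calc C p.1 * (X p.2 k * Y k q.2) * star (C q.1)
        = C p.1 * X p.2 k * (∑ a, star (C a) * C a) * (Y k q.2 * star (C q.1)) := by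
          rw [hC, mul_one]; simp only [mul_assoc]
      _ = _ := by
          rw [Finset.mul_sum, Finset.sum_mul]
          refine Finset.sum_congr rfl fun a _ => ?_
          simp only [mul_assoc]
  map_star' X := by
    ext p q
    rw [CStarMatrix.star_apply, psiM_apply, psiM_apply, CStarMatrix.star_apply, star_mul,
      star_mul, star_star, mul_assoc]

theorem psi_apply (C : Fin 2 → F) (hC : ∑ a, star (C a) * C a = 1) {m : ℕ}
    (X : CStarMatrix (Fin m) (Fin m) F) (p q : Fin 2 × Fin m) :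
    psi C hC m X p q = C p.1 * X p.2 q.2 * star (C q.1) := rfl

end basic

section main

variable {F : Type u} [CStarAlgebra F] {B : Type u} [CStarAlgebra B]
variable {H : Type v} [NormedAddCommGroup H] [InnerProductSpace ℂ H] [CompleteSpace H]

/-- The range of the idempotent `w G`. -/
def sub (w : F →ₗ[ℂ] (H →L[ℂ] H)) (G : F) : Submodule ℂ H := (1 - w G).ker

omit [CompleteSpace H] in
theorem mem_sub (w : F →ₗ[ℂ] (H →L[ℂ] H)) (G : F) (v : H) : v ∈ sub w G ↔ w G v = v := by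
  rw [sub, LinearMap.mem_ker]
  change v - w G v = 0 ↔ _
  rw [sub_eq_zero, eq_comm]

instance (w : F →ₗ[ℂ] (H →L[ℂ] H)) (G : F) : CompleteSpace (sub w G) :=
  (ContinuousLinearMap.isClosed_ker (1 - w G)).completeSpace_coe

omit [CompleteSpace H] in
theorem inv_sub {w : F →ₗ[ℂ] (H →L[ℂ] H)} (hw : IsHom w) {G y : F} (h : G * y = y) (v : H) :
    w y v ∈ sub w G := by
  rw [mem_sub]
  have h1 : w G (w y v) = (w G * w y) v := rfl
  rw [h1, ← hw.mul, h]

/-- The homomorphism of the algebra `B` on the range of `w (Φ 1)`. -/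
def uh (w : F →ₗ[ℂ] (H →L[ℂ] H)) (hw : IsHom w) (Φ : B →⋆ₙₐ[ℂ] F) :
    B →ₗ[ℂ] (sub w (Φ 1) →L[ℂ] sub w (Φ 1)) where
  toFun Y := ((w (Φ Y)).comp (sub w (Φ 1)).subtypeL).codRestrict (sub w (Φ 1))
    fun v => inv_sub hw (by rw [← map_mul, one_mul]) _
  map_add' X Y := by
    ext v
    change w (Φ (X + Y)) (v : H) = w (Φ X) (v : H) + w (Φ Y) (v : H)
    rw [map_add, map_add]
    rfl
  map_smul' c X := by
    ext v
    change w (Φ (c • X)) (v : H) = c • w (Φ X) (v : H)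
    rw [map_smul, map_smul]
    rfl

theorem uh_apply (w : F →ₗ[ℂ] (H →L[ℂ] H)) (hw : IsHom w) (Φ : B →⋆ₙₐ[ℂ] F) (Y : B)
    (v : sub w (Φ 1)) : (uh w hw Φ Y v : H) = w (Φ Y) (v : H) := rfl

theorem uh_hom (w : F →ₗ[ℂ] (H →L[ℂ] H)) (hw : IsHom w) (Φ : B →⋆ₙₐ[ℂ] F) :
    IsHom (uh w hw Φ) := by
  constructor
  · intro a b
    ext v
    rw [uh_apply, map_mul, hw.mul]
    rfl
  · ext v
    rw [uh_apply]
    exact (mem_sub _ _ _).1 v.2

theorem uh_norm (w : F →ₗ[ℂ] (H →L[ℂ] H)) (hw : IsHom w) (Φ : B →⋆ₙₐ[ℂ] F) (c : ℝ) (hc : 0 ≤ c)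
    (hb : ∀ a, ‖w a‖ ≤ c * ‖a‖) (Y : B) : ‖uh w hw Φ Y‖ ≤ c * ‖Y‖ := by
  refine ContinuousLinearMap.opNorm_le_bound _ (by positivity) fun v => ?_
  have h1 : ‖uh w hw Φ Y v‖ = ‖w (Φ Y) (v : H)‖ := rfl
  rw [h1]
  refine ((w (Φ Y)).le_opNorm _).trans ?_
  refine mul_le_mul_of_nonneg_right ?_ (norm_nonneg _)
  exact (hb _).trans (mul_le_mul_of_nonneg_left (NonUnitalStarAlgHom.norm_apply_le Φ Y) hc)

end main

section final

variable {F : Type u} [CStarAlgebra F] [PartialOrder F] [StarOrderedRing F]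
variable {B : Type u} [CStarAlgebra B] [PartialOrder B] [StarOrderedRing B]
variable {H : Type v} [NormedAddCommGroup H] [InnerProductSpace ℂ H] [CompleteSpace H]

/-- The lift of the matrix `psi X`. -/
theorem lift_ex (Φ : B →⋆ₙₐ[ℂ] F) (hΦ : Function.Injective Φ)
    (hs : ∀ y, Φ 1 * y * Φ 1 = y → ∃ Y, Φ Y = y) (C : Fin 2 → F)
    (hC : ∑ a, star (C a) * C a = 1) (hG : ∀ a, Φ 1 * C a = C a) {m : ℕ}
    (X : CStarMatrix (Fin m) (Fin m) F) :
    ∃ Y : CStarMatrix (Fin 2 × Fin m) (Fin 2 × Fin m) B, ‖Y‖ ≤ ‖X‖ ∧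
      ∀ p q, Φ (Y p q) = C p.1 * X p.2 q.2 * star (C q.1) := by
  have hst : star (Φ 1) = Φ 1 := by rw [← map_star, star_one]
  have hG' : ∀ a, star (C a) * Φ 1 = star (C a) := by
    intro a
    have h1 := congrArg star (hG a)
    rw [star_mul, hst] at h1
    exact h1
  have h1 : ∀ p q : Fin 2 × Fin m, ∃ Y, Φ Y = C p.1 * X p.2 q.2 * star (C q.1) := by
    intro p q
    apply hs
    calc Φ 1 * (C p.1 * X p.2 q.2 * star (C q.1)) * Φ 1
        = (Φ 1 * C p.1) * X p.2 q.2 * (star (C q.1) * Φ 1) := by simp only [mul_assoc]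
      _ = _ := by rw [hG, hG']
  choose Y hY using h1
  refine ⟨CStarMatrix.ofMatrix fun p q => Y p q, ?_, hY⟩
  set Y' : CStarMatrix (Fin 2 × Fin m) (Fin 2 × Fin m) B := CStarMatrix.ofMatrix fun p q => Y p q
    with hY'
  have h2 : CStarMatrix.mapₙₐ (n := Fin 2 × Fin m) Φ Y' = psi C hC m X := by
    ext p q
    exact hY p q
  have h3 : Function.Injective (CStarMatrix.mapₙₐ (n := Fin 2 × Fin m) Φ) := by
    intro A A' h
    ext p q
    apply hΦ
    have h4 := congrArg (fun M : CStarMatrix (Fin 2 × Fin m) (Fin 2 × Fin m) F => M p q) h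
    exact h4
  have h5 : ‖CStarMatrix.mapₙₐ (n := Fin 2 × Fin m) Φ Y'‖ = ‖Y'‖ :=
    NonUnitalStarAlgHom.norm_map _ h3 Y'
  rw [← h5, h2]
  exact NonUnitalStarAlgHom.norm_apply_le _ _

theorem final (Φ : B →⋆ₙₐ[ℂ] F) (hΦ : Function.Injective Φ)
    (hs : ∀ y, Φ 1 * y * Φ 1 = y → ∃ Y, Φ Y = y) (C : Fin 2 → F)
    (hC : ∑ a, star (C a) * C a = 1) (hG : ∀ a, Φ 1 * C a = C a) (hn : ∀ a, ‖C a‖ ≤ 1) (m : ℕ)
    (c K : ℝ) (hc : 1 ≤ c) (hK : 0 ≤ K) (w : F →ₗ[ℂ] (H →L[ℂ] H)) (hw : IsHom w)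
    (hb : ∀ a, ‖w a‖ ≤ c * ‖a‖) (hL : LvlBd (uh w hw Φ) (2 * m) K) :
    LvlBd w m (2 * c ^ 2 * K) := by
  intro X
  obtain ⟨Y, hYn, hY⟩ := lift_ex Φ hΦ hs C hC hG X
  have hc0 : (0 : ℝ) ≤ c := by linarith
  have hlev : ∀ Y : CStarMatrix (Fin 2 × Fin m) (Fin 2 × Fin m) B,
      ‖amp (uh w hw Φ) (Fin 2 × Fin m) Y‖ ≤ K * ‖Y‖ := by
    refine prove3_level _ _ _ _ _ hK hL _ ?_
    simp
  refine ContinuousLinearMap.opNorm_le_bound _ (by positivity) fun v => ?_
  set v' : HH (Fin 2 × Fin m) (sub w (Φ 1)) :=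
    WithLp.toLp 2 fun q => ⟨w (C q.1) (v q.2), inv_sub hw (hG q.1) _⟩ with hv'
  have hv'1 : ∀ q, ((v' q : sub w (Φ 1)) : H) = w (C q.1) (v q.2) := fun q => rfl
  set r := amp (uh w hw Φ) (Fin 2 × Fin m) Y v' with hr
  have hwc : ∀ a, ‖w (C a)‖ ≤ c := fun a =>
    (hb _).trans (mul_le_of_le_one_right hc0 (hn a))
  have hwc' : ∀ a, ‖w (star (C a))‖ ≤ c := fun a =>
    (hb _).trans (mul_le_of_le_one_right hc0 (by rw [norm_star]; exact hn a))
  have key : ∀ i, amp w (Fin m) X v i = ∑ a, w (star (C a)) ((r (a, i) : sub w (Φ 1)) : H) := by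
    intro i
    have h1 : ∀ a, ((r (a, i) : sub w (Φ 1)) : H) =
        ∑ b, ∑ j, w (C a * X i j * star (C b)) (w (C b) (v j)) := by
      intro a
      rw [hr, amp_apply, Submodule.coe_sum, Fintype.sum_prod_type]
      refine Finset.sum_congr rfl fun b _ => Finset.sum_congr rfl fun j _ => ?_
      rw [uh_apply, hv'1, hY]
    simp only [h1, map_sum]
    rw [amp_apply]
    have h2 : ∀ j, w (X i j) (v j) = ∑ a, ∑ b, w (star (C a)) (w (C a * X i j * star (C b))
        (w (C b) (v j))) := by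
      intro j
      have h3 : X i j = ∑ a, ∑ b, star (C a) * (C a * X i j * star (C b)) * C b := by
        calc X i j = (∑ a, star (C a) * C a) * X i j * (∑ b, star (C b) * C b) := by
              rw [hC, one_mul, mul_one]
          _ = _ := by
              rw [Finset.sum_mul, Finset.sum_mul]
              refine Finset.sum_congr rfl fun a _ => ?_
              rw [Finset.mul_sum]
              refine Finset.sum_congr rfl fun b _ => ?_
              simp only [mul_assoc]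
      conv_lhs => rw [h3]
      simp only [map_sum, _root_.sum_apply, hw.mul]
      rfl
    simp only [h2]
    rw [Finset.sum_comm]
    refine Finset.sum_congr rfl fun a _ => ?_
    rw [Finset.sum_comm]
  have hrn : ‖r‖ ≤ K * ‖X‖ * ‖v'‖ := by
    refine ((amp (uh w hw Φ) (Fin 2 × Fin m) Y).le_opNorm v').trans ?_
    refine mul_le_mul_of_nonneg_right ?_ (norm_nonneg _)
    exact (hlev Y).trans (mul_le_mul_of_nonneg_left hYn hK)
  have hvn : ‖v'‖ ^ 2 ≤ 2 * c ^ 2 * ‖v‖ ^ 2 := by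
    rw [PiLp.norm_sq_eq_of_L2, PiLp.norm_sq_eq_of_L2, Fintype.sum_prod_type]
    have h1 : ∀ (b : Fin 2) (j : Fin m), ‖v' (b, j)‖ ^ 2 ≤ c ^ 2 * ‖v j‖ ^ 2 := by
      intro b j
      have h2 : ‖v' (b, j)‖ = ‖w (C b) (v j)‖ := rfl
      rw [h2, ← mul_pow]
      refine pow_le_pow_left₀ (norm_nonneg _) ?_ 2
      exact ((w (C b)).le_opNorm _).trans (mul_le_mul_of_nonneg_right (hwc b) (norm_nonneg _))
    calc ∑ b : Fin 2, ∑ j : Fin m, ‖v' (b, j)‖ ^ 2
        ≤ ∑ b : Fin 2, ∑ j : Fin m, c ^ 2 * ‖v j‖ ^ 2 :=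
          Finset.sum_le_sum fun b _ => Finset.sum_le_sum fun j _ => h1 b j
      _ = _ := by
          rw [Fin.sum_univ_two, ← Finset.mul_sum]
          ring
  have hfn : ‖amp w (Fin m) X v‖ ^ 2 ≤ 2 * c ^ 2 * ‖r‖ ^ 2 := by
    rw [PiLp.norm_sq_eq_of_L2, PiLp.norm_sq_eq_of_L2, Fintype.sum_prod_type, Finset.sum_comm,
      Finset.mul_sum]
    refine Finset.sum_le_sum fun i _ => ?_
    rw [key i, Fin.sum_univ_two, Fin.sum_univ_two]
    have h1 : ∀ a : Fin 2, ‖w (star (C a)) ((r (a, i) : sub w (Φ 1)) : H)‖ ≤ c * ‖r (a, i)‖ := by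
      intro a
      exact ((w (star (C a))).le_opNorm _).trans
        (mul_le_mul_of_nonneg_right (hwc' a) (norm_nonneg _))
    have h2 := norm_add_le (w (star (C 0)) ((r (0, i) : sub w (Φ 1)) : H))
      (w (star (C 1)) ((r (1, i) : sub w (Φ 1)) : H))
    have h3 : ‖w (star (C 0)) ((r (0, i) : sub w (Φ 1)) : H) +
        w (star (C 1)) ((r (1, i) : sub w (Φ 1)) : H)‖ ≤ c * (‖r (0, i)‖ + ‖r (1, i)‖) := by
      linarith [h1 0, h1 1]
    have h4 := pow_le_pow_left₀ (norm_nonneg _) h3 2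
    refine h4.trans ?_
    nlinarith [sq_nonneg (‖r (0, i)‖ - ‖r (1, i)‖), sq_nonneg c]
  have h7 : ‖amp w (Fin m) X v‖ ^ 2 ≤ (2 * c ^ 2 * K * ‖X‖ * ‖v‖) ^ 2 := by
    calc ‖amp w (Fin m) X v‖ ^ 2 ≤ 2 * c ^ 2 * ‖r‖ ^ 2 := hfn
      _ ≤ 2 * c ^ 2 * (K * ‖X‖ * ‖v'‖) ^ 2 := by
          refine mul_le_mul_of_nonneg_left ?_ (by positivity)
          exact pow_le_pow_left₀ (norm_nonneg _) hrn 2
      _ = 2 * c ^ 2 * (K * ‖X‖) ^ 2 * ‖v'‖ ^ 2 := by ring
      _ ≤ 2 * c ^ 2 * (K * ‖X‖) ^ 2 * (2 * c ^ 2 * ‖v‖ ^ 2) :=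
          mul_le_mul_of_nonneg_left hvn (by positivity)
      _ = _ := by ring
  exact (pow_le_pow_iff_left₀ (norm_nonneg _) (by positivity) two_ne_zero).1 h7

end final

end Comb

open Comb in
theorem prove_comb (h : Q_phi.{u}) : Q_comb.{u, v} := by
  intro F _ _ _ k V P hT hS N _ _ _ j hj m c K hc hK hall H _ _ _ w hw hb
  obtain ⟨Φ, -, hΦi, hΦ1, hΦs⟩ := h F (k + 1) V P hT N j hj
  obtain ⟨S, hS1, hS2⟩ := hS
  have hG := G_prj hT
  set G := ∑ i, V i * star (V i) with hGdef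
  set C : Fin 2 → F := ![G, V 0 * S] with hCdef
  have hC0 : C 0 = G := rfl
  have hC1 : C 1 = V 0 * S := rfl
  have hSP : star (V 0 * S) * (V 0 * S) = 1 - G := by
    rw [star_mul, mul_assoc, ← mul_assoc (star (V 0)), hT.rel 0 0, if_pos rfl, hS2, hS1]
  have hC : ∑ a, star (C a) * C a = 1 := by
    rw [Fin.sum_univ_two, hC0, hC1, hSP, hG.1, hG.2]
    abel
  have h1G : Prj (1 - G) := by
    constructor
    · rw [star_sub, star_one, hG.1]
    · rw [mul_sub, sub_mul, sub_mul, one_mul, mul_one, hG.2]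
      simp
  have hGC : ∀ a, Φ 1 * C a = C a := by
    rw [hΦ1]
    intro a
    fin_cases a
    · change G * G = G
      exact hG.2
    · change G * (V 0 * S) = V 0 * S
      rw [← mul_assoc, hGdef, G_mul hT]
  have hn : ∀ a, ‖C a‖ ≤ 1 := by
    intro a
    fin_cases a
    · exact prj_norm hG
    · exact pi_norm h1G hSP
  refine final Φ hΦi (by rw [hΦ1]; exact hΦs) C hC hGC hn m c K hc hK w hw hb ?_
  exact hall _ _ (uh_hom w hw Φ) (uh_norm w hw Φ c (by linarith) hb)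

end H759R2.Kad
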